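import Pool.Agent.Helper11.Stab.LocR
import Mathlib.Algebra.Colimit.Module

/-! The localisation of the graded functor of a bivariant theory at a datum, as a direct limit. -/

open CategoryTheory Topology Filter Set Opposite

noncomputable section

namespace Pool.Agent.Helper11.Stab

open Pool.Agent.Helper1.Stab

variable (R : Biv) (D : Datum)

/-- the group of stage `n` -/
abbrev St (K Z : LC) (n : ℕ) : Type := R.Hom ((D.A (Fin n)).prod K) ((D.B (Fin n)).prod Z)

/-- `n + (m - n) = m` -/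
def fe {n m : ℕ} (h : n ≤ m) : Fin n ⊕ Fin (m - n) ≃ Fin m :=
  finSumFinEquiv.trans (finCongr (Nat.add_sub_of_le h))

/-- the transition maps -/
def TT (K Z : LC) (n m : ℕ) (h : n ≤ m) : St R D K Z n →+ St R D K Z m where
  toFun y := reR R D (fe h) (stabR R D y (Fin (m - n)))
  map_zero' := by rw [stabR_zero, reR_zero]
  map_add' y z := by rw [stabR_add, reR_add]

theorem TT_apply (K Z : LC) (n m : ℕ) (h : n ≤ m) (y : St R D K Z n) :
    TT R D K Z n m h y = reR R D (fe h) (stabR R D y (Fin (m - n))) := rfl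

theorem TT_eq {K Z : LC} {n m : ℕ} (h : n ≤ m) {κ : Type} [Fintype κ] (e : Fin n ⊕ κ ≃ Fin m)
    (y : St R D K Z n) : TT R D K Z n m h y = reR R D e (stabR R D y κ) :=
  stab_key R D (fe h) e y

instance (K Z : LC) : DirectedSystem (St R D K Z) (fun n m h => TT R D K Z n m h) where
  map_self n y := by
    have : IsEmpty (Fin (n - n)) := by
      rw [Nat.sub_self]
      infer_instance
    rw [TT_apply, stabR_empty, reR_reR]
    exact reR_perm R D _ y
  map_map l m n h h' y := by
    rw [TT_apply, TT_apply, reR_stabR, reR_reR]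
    have h1 : stabR R D (stabR R D y (Fin (m - n))) (Fin (l - m)) =
        reR R D (Equiv.sumAssoc (Fin n) (Fin (m - n)) (Fin (l - m))).symm
          (stabR R D y (Fin (m - n) ⊕ Fin (l - m))) := by
      rw [stabR_stabR, reR_reR, Equiv.self_trans_symm, reR_refl]
    rw [h1, reR_reR]
    exact (TT_eq R D (h.trans h') _ y).symm

/-- the direct limit -/
abbrev Lim (K Z : LC) : Type := AddCommGroup.DirectLimit (St R D K Z) (TT R D K Z)

/-- the canonical maps -/
abbrev lof (K Z : LC) (n : ℕ) : St R D K Z n →+ Lim R D K Z :=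
  AddCommGroup.DirectLimit.of (St R D K Z) (TT R D K Z) n

/-- the class of an element of stage `ι` -/
def lcls {ι : Type} [Fintype ι] {K Z : LC} (y : R.Hom ((D.A ι).prod K) ((D.B ι).prod Z)) :
    Lim R D K Z :=
  lof R D K Z (Fintype.card ι) (reR R D (Fintype.equivFin ι) y)

theorem lcls_of {ι : Type} [Fintype ι] {K Z : LC} {n : ℕ} (e : ι ≃ Fin n)
    (y : R.Hom ((D.A ι).prod K) ((D.B ι).prod Z)) :
    lcls R D y = lof R D K Z n (reR R D e y) := by
  have hn : Fintype.card ι = n := by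
    rw [Fintype.card_congr e, Fintype.card_fin]
  subst hn
  unfold lcls
  rw [reR_congr R D (Fintype.equivFin ι) e y]

theorem lcls_fin {K Z : LC} {n : ℕ} (y : St R D K Z n) : lcls R D y = lof R D K Z n y := by
  rw [lcls_of R D (Equiv.refl (Fin n)) y, reR_refl]

theorem lof_TT {K Z : LC} {n m : ℕ} (h : n ≤ m) (y : St R D K Z n) :
    lof R D K Z m (TT R D K Z n m h y) = lof R D K Z n y :=
  AddCommGroup.DirectLimit.of_f h y

section
variable {ι κ : Type} [Fintype ι] [Fintype κ] {K L Z : LC}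

theorem lcls_add (y z : R.Hom ((D.A ι).prod K) ((D.B ι).prod Z)) :
    lcls R D (y + z) = lcls R D y + lcls R D z := by
  unfold lcls
  rw [reR_add, map_add]

theorem lcls_re (e : ι ≃ κ) (y : R.Hom ((D.A ι).prod K) ((D.B ι).prod Z)) :
    lcls R D (reR R D e y) = lcls R D y := by
  rw [lcls_of R D (Fintype.equivFin κ), reR_reR, ← lcls_of]

theorem lcls_stab (y : R.Hom ((D.A ι).prod K) ((D.B ι).prod Z)) :
    lcls R D (stabR R D y κ) = lcls R D y := by
  have e1 : ι ≃ Fin (Fintype.card ι) := Fintype.equivFin ι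
  have e2 : ι ⊕ κ ≃ Fin (Fintype.card ι + Fintype.card κ) :=
    ((Fintype.equivFin ι).sumCongr (Fintype.equivFin κ)).trans finSumFinEquiv
  rw [lcls_of R D e1 y, lcls_of R D e2, ← lof_TT R D (Nat.le_add_right (Fintype.card ι)
    (Fintype.card κ)), TT_apply, reR_stabR, reR_reR]
  exact congrArg _ (stab_key R D _ _ y)

theorem lcls_surj (t : Lim R D K Z) (N : ℕ) : ∃ n ≥ N, ∃ y : St R D K Z n, t = lcls R D y := by
  induction t using AddCommGroup.DirectLimit.induction_on with | _ n y =>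
  refine ⟨max n N, le_max_right _ _, TT R D K Z n (max n N) (le_max_left _ _) y, ?_⟩
  rw [lcls_fin, lof_TT]

theorem lcls_eq_zero (y : R.Hom ((D.A ι).prod K) ((D.B ι).prod Z)) (h : lcls R D y = 0) :
    ∃ m : ℕ, stabR R D y (Fin m) = 0 := by
  unfold lcls at h
  obtain ⟨m, hm, h1⟩ := AddCommGroup.DirectLimit.of.zero_exact
    (f := TT R D K Z) (Fintype.card ι) _ h
  refine ⟨m - Fintype.card ι, ?_⟩
  rw [TT_apply, reR_stabR, reR_reR] at h1
  exact reR_eq_zero R D _ h1

theorem lim_ind {P : Lim R D K Z → Prop} (h : ∀ (n : ℕ) (y : St R D K Z n), P (lcls R D y))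
    (t : Lim R D K Z) : P t := by
  induction t using AddCommGroup.DirectLimit.induction_on with | _ n y =>
  rw [← lcls_fin]
  exact h n y

end

/-! ### Functoriality -/

/-- precomposition with a homotopy class, at stage `n` -/
def preH {K L : LC} (Z : LC) (f : HMap K L.plus) (n : ℕ) : St R D L Z n →+ St R D K Z n :=
  R.pre (HMap.box (PMap.id (D.A (Fin n))).cls f) ((D.B (Fin n)).prod Z)

theorem preH_cls {K L : LC} (Z : LC) (φ : PMap K L.plus) (n : ℕ) (y : St R D L Z n) :
    preH R D Z φ.cls n y = preR R D φ y := rfl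

theorem preH_TT {K L : LC} (Z : LC) (f : HMap K L.plus) (n m : ℕ) (h : n ≤ m) :
    (preH R D Z f m).comp (TT R D L Z n m h) = (TT R D K Z n m h).comp (preH R D Z f n) := by
  ext y
  revert f
  refine HMap.ind fun φ => ?_
  change preR R D φ (reR R D (fe h) (stabR R D y (Fin (m - n)))) =
    reR R D (fe h) (stabR R D (preR R D φ y) (Fin (m - n)))
  rw [preR_reR, preR_stabR]

/-- precomposition on the limit -/
def limMap {K L : LC} (Z : LC) (f : HMap K L.plus) : Lim R D L Z →+ Lim R D K Z :=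
  AddCommGroup.DirectLimit.map (preH R D Z f) (preH_TT R D Z f)

theorem limMap_lcls {ι : Type} [Fintype ι] {K L Z : LC} (φ : PMap K L.plus)
    (y : R.Hom ((D.A ι).prod L) ((D.B ι).prod Z)) :
    limMap R D Z φ.cls (lcls R D y) = lcls R D (preR R D φ y) := by
  unfold lcls limMap
  refine (AddCommGroup.DirectLimit.map_apply_of _ _ _).trans ?_
  rw [preH_cls, preR_reR]

theorem preR_id {ι : Type} [Fintype ι] {K Z : LC} (y : R.Hom ((D.A ι).prod K) ((D.B ι).prod Z)) :
    preR R D (PMap.id K) y = y := by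
  unfold preR
  have h : PMap.ltens (D.A ι) (PMap.id K) = PMap.id ((D.A ι).prod K) := PMap.box_id _ _
  rw [h, R.id_comp]

theorem preR_preR {ι : Type} [Fintype ι] {K L M Z : LC} (φ : PMap K L.plus) (ψ : PMap L M.plus)
    (y : R.Hom ((D.A ι).prod M) ((D.B ι).prod Z)) :
    preR R D φ (preR R D ψ y) = preR R D (ψ.comp φ) y := by
  rw [preR_eq, preR_eq, preR_eq, gg_gg]
  refine gg_congr R _ ?_ (fun _ => rfl)
  rintro ⟨v, k⟩
  change (PMap.ltens (D.A ι) ψ).plus (smashPt (D.A ι) L ((v : OnePoint (D.A ι)), φ k)) =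
    smashPt (D.A ι) M ((v : OnePoint (D.A ι)), ψ.plus (φ k))
  rcases φ k with _ | x
  · rfl
  · rfl

theorem limMap_id (K Z : LC) (t : Lim R D K Z) : limMap R D Z (PMap.id K).cls t = t := by
  induction t using lim_ind with | _ n y =>
  rw [limMap_lcls, preR_id]

theorem limMap_comp {K L M : LC} (Z : LC) (f : HMap K L.plus) (g : HMap L M.plus)
    (t : Lim R D M Z) : limMap R D Z (g.comp f) t = limMap R D Z f (limMap R D Z g t) := by
  induction t using lim_ind with | _ n y =>
  revert f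
  refine HMap.ind fun φ => ?_
  revert g
  refine HMap.ind fun ψ => ?_
  change limMap R D Z (ψ.comp φ).cls _ = _
  rw [limMap_lcls, limMap_lcls, limMap_lcls, preR_preR]

/-- the functor -/
def limFn (Z : LC) : Testᵒᵖ ⥤ AddCommGrpCat.{0} where
  obj K := AddCommGrpCat.of (Lim R D K.unop.obj Z)
  map f := AddCommGrpCat.ofHom (limMap R D Z f.unop.hom)
  map_id K := by
    refine AddCommGrpCat.hom_ext (AddMonoidHom.ext fun t => ?_)
    exact limMap_id R D K.unop.obj Z t
  map_comp f g := by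
    refine AddCommGrpCat.hom_ext (AddMonoidHom.ext fun t => ?_)
    exact limMap_comp R D Z g.unop.hom f.unop.hom t

/-! ### Suspension -/

theorem sigR_add {ι : Type} [Fintype ι] {K Z : LC}
    (y z : R.Hom ((D.A ι).prod K) ((D.B ι).prod Z)) :
    sigR R D (y + z) = sigR R D y + sigR R D z := by
  rw [sigR_eq, sigR_eq, sigR_eq, R.ltens_add, gg_add]

theorem sigR_zero {ι : Type} [Fintype ι] {K Z : LC} :
    sigR R D (0 : R.Hom ((D.A ι).prod K) ((D.B ι).prod Z)) = 0 := by
  rw [sigR_eq, R.ltens_zero, gg_zero]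

/-- suspension at stage `n` -/
def sigE (K Z : LC) (n : ℕ) : St R D K Z n ≃+ St R D (LC.C.prod K) (LC.C.prod Z) n :=
  AddEquiv.ofBijective
    ({ toFun := fun y => sigR R D y
       map_zero' := sigR_zero R D
       map_add' := sigR_add R D } : St R D K Z n →+ St R D (LC.C.prod K) (LC.C.prod Z) n)
    (sigR_bijective R D)

theorem sigE_apply (K Z : LC) (n : ℕ) (y : St R D K Z n) : sigE R D K Z n y = sigR R D y := rfl

theorem sigE_TT (K Z : LC) (n m : ℕ) (h : n ≤ m) :
    (sigE R D K Z m).toAddMonoidHom.comp (TT R D K Z n m h) =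
      (TT R D (LC.C.prod K) (LC.C.prod Z) n m h).comp (sigE R D K Z n).toAddMonoidHom := by
  ext y
  change sigR R D (reR R D (fe h) (stabR R D y (Fin (m - n)))) =
    reR R D (fe h) (stabR R D (sigR R D y) (Fin (m - n)))
  rw [sigR_reR, sigR_stabR]

/-- suspension on the limit -/
def limSig (K Z : LC) : Lim R D K Z ≃+ Lim R D (LC.C.prod K) (LC.C.prod Z) :=
  AddCommGroup.DirectLimit.congr (sigE R D K Z) (sigE_TT R D K Z)

theorem limSig_lcls {ι : Type} [Fintype ι] {K Z : LC}
    (y : R.Hom ((D.A ι).prod K) ((D.B ι).prod Z)) :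
    limSig R D K Z (lcls R D y) = lcls R D (sigR R D y) := by
  unfold lcls limSig
  refine (AddCommGroup.DirectLimit.congr_apply_of _ _ _).trans ?_
  rw [sigE_apply, sigR_reR]

theorem limSig_limMap {K L : LC} (Z : LC) (f : HMap K L.plus) (t : Lim R D L Z) :
    limSig R D K Z (limMap R D Z f t) =
      limMap R D (LC.C.prod Z) (HMap.box (PMap.id LC.C).cls f) (limSig R D L Z t) := by
  induction t using lim_ind with | _ n y =>
  revert f
  refine HMap.ind fun φ => ?_
  change _ = limMap R D (LC.C.prod Z) (PMap.ltens LC.C φ).cls _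
  rw [limMap_lcls, limSig_lcls, limSig_lcls, limMap_lcls, sigR_preR]

/-- the graded functor -/
def limGF : GF where
  h b := limFn R D (Zb b)
  σ b := NatIso.ofComponents (fun K => (limSig R D K.unop.obj (Zb b)).toAddCommGrpIso) (by
    intro X Y f
    refine AddCommGrpCat.hom_ext (AddMonoidHom.ext fun t => ?_)
    exact limSig_limMap R D (Zb b) f.unop.hom t)

/-- The graded functor `H^b(K) = colim_ι R(A ι × K, B ι × ℂ^b)` (copy of the structure `LocGF`). -/
structure LocGF' where
  H : GF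
  cls : ∀ {b : ℕ} {ι : Type} [Fintype ι] {K : Test},
    R.Hom ((D.A ι).prod K.obj) ((D.B ι).prod (Zb b)) → ((H.h b).obj (op K) : Type)
  cls_add : ∀ {b : ℕ} {ι : Type} [Fintype ι] {K : Test}
    (y z : R.Hom ((D.A ι).prod K.obj) ((D.B ι).prod (Zb b))), cls (y + z) = cls y + cls z
  cls_stab : ∀ {b : ℕ} {ι : Type} [Fintype ι] {K : Test}
    (y : R.Hom ((D.A ι).prod K.obj) ((D.B ι).prod (Zb b))) (κ : Type) [Fintype κ],
    cls (stabR R D y κ) = cls y
  cls_re : ∀ {b : ℕ} {ι κ : Type} [Fintype ι] [Fintype κ] (e : ι ≃ κ) {K : Test}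
    (y : R.Hom ((D.A ι).prod K.obj) ((D.B ι).prod (Zb b))), cls (reR R D e y) = cls y
  surj : ∀ {b : ℕ} {K : Test} (t : (H.h b).obj (op K)) (N : ℕ), ∃ n ≥ N,
    ∃ y : R.Hom ((D.A (Fin n)).prod K.obj) ((D.B (Fin n)).prod (Zb b)), t = cls y
  eq_zero : ∀ {b : ℕ} {ι : Type} [Fintype ι] {K : Test}
    (y : R.Hom ((D.A ι).prod K.obj) ((D.B ι).prod (Zb b))), cls y = 0 →
    ∃ m : ℕ, stabR R D y (Fin m) = 0
  map_cls : ∀ {b : ℕ} {ι : Type} [Fintype ι] {K L : Test} (φ : PMap K.obj L.obj.plus)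
    (y : R.Hom ((D.A ι).prod L.obj) ((D.B ι).prod (Zb b))),
    (H.h b).map (Quiver.Hom.op (X := K) (Y := L) (ObjectProperty.homMk φ.cls)) (cls y) =
      cls (R.comp (R.J (PMap.ltens (D.A ι) φ)) y)
  σ_cls : ∀ {b : ℕ} {ι : Type} [Fintype ι] {K : Test}
    (y : R.Hom ((D.A ι).prod K.obj) ((D.B ι).prod (Zb b))),
    ((H.σ b).hom.app (op K)) (cls y) =
      cls (b := b + 1) (K := Test.cx.obj K)
        (R.comp (R.J (PMap.ofHomeo (frontC (D.A ι) K.obj)))
          (R.comp (R.ltens LC.C y) (R.J (PMap.ofHomeo (frontC (D.B ι) (Zb b)).symm))))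

/-- the localisation -/
def locGF' : LocGF' R D where
  H := limGF R D
  cls y := lcls R D y
  cls_add y z := lcls_add R D y z
  cls_stab y _ _ := lcls_stab R D y
  cls_re e _ y := lcls_re R D e y
  surj t N := lcls_surj R D t N
  eq_zero y h := lcls_eq_zero R D y h
  map_cls φ y := limMap_lcls R D φ y
  σ_cls y := limSig_lcls R D y

end Pool.Agent.Helper11.Stab
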