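import Pool.Agent.Helper1.Stab.Comp
import Pool.Agent.Helper68.Stab.LocRep
import Pool.Agent.Helper68.Stab.Unstable
import Pool.Agent.Helper39.Stab.Ltens

/-! The localisation of the groups `R(K, Z)` at a datum: stages, transition maps, renaming. -/

open CategoryTheory Topology Filter Set Opposite

noncomputable section

namespace Pool.Agent.Helper11.Stab

open Pool.Agent.Helper1.Stab
open Pool.Agent.Helper39.Stab (asc J_homeo J_homeo_symm J_homeo_symm' tens_id tens_ltens ltens_comp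
  ltens_J tens_homeo ltens_homeo tens_tens' tens_tens tens_exch)

variable (R : Biv)

/-! ### Pre- and postcomposition with maps -/

/-- pre- and postcomposition with maps -/
def gg {X X' Y Y' : LC} (a : PMap X' X.plus) (p : PMap Y Y'.plus) (y : R.Hom X Y) :
    R.Hom X' Y' :=
  R.comp (R.J a) (R.comp y (R.J p))

theorem gg_gg {X X' X'' Y Y' Y'' : LC} (a' : PMap X'' X'.plus) (p' : PMap Y' Y''.plus)
    (a : PMap X' X.plus) (p : PMap Y Y'.plus) (y : R.Hom X Y) :
    gg R a' p' (gg R a p y) = gg R (a.comp a') (p'.comp p) y := by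
  unfold gg
  rw [R.J_comp, R.J_comp]
  simp only [R.assoc]

theorem gg_id {X Y : LC} (y : R.Hom X Y) : gg R (PMap.id X) (PMap.id Y) y = y := by
  unfold gg
  rw [R.id_comp, R.comp_id]

theorem gg_add {X X' Y Y' : LC} (a : PMap X' X.plus) (p : PMap Y Y'.plus) (y z : R.Hom X Y) :
    gg R a p (y + z) = gg R a p y + gg R a p z := by
  unfold gg
  rw [R.add_comp, R.comp_add]

theorem gg_zero {X X' Y Y' : LC} (a : PMap X' X.plus) (p : PMap Y Y'.plus) :
    gg R a p (0 : R.Hom X Y) = 0 := by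
  unfold gg
  rw [R.zero_comp, R.comp_zero]

theorem gg_tens {X X' Y Y' : LC} (a : PMap X' X.plus) (p : PMap Y Y'.plus) (y : R.Hom X Y)
    (W : LC) : R.tens (gg R a p y) W = gg R (a.tens W) (p.tens W) (R.tens y W) := by
  unfold gg
  rw [R.tens_comp, R.tens_comp, R.tens_J, R.tens_J]

theorem gg_ltens {X X' Y Y' : LC} (a : PMap X' X.plus) (p : PMap Y Y'.plus) (y : R.Hom X Y)
    (W : LC) : R.ltens W (gg R a p y) = gg R (PMap.ltens W a) (PMap.ltens W p) (R.ltens W y) := by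
  unfold gg
  rw [ltens_comp, ltens_comp, ltens_J, ltens_J]

theorem tens_tens_gg {X Y : LC} (y : R.Hom X Y) (Z W : LC) :
    R.tens (R.tens y Z) W = gg R (PMap.ofHomeo (asc X Z W)) (PMap.ofHomeo (asc Y Z W).symm)
      (R.tens y (Z.prod W)) := tens_tens' R y Z W

theorem tens_ltens_gg {X Y : LC} (Z : LC) (y : R.Hom X Y) (W : LC) :
    R.tens (R.ltens Z y) W = gg R (PMap.ofHomeo (asc Z X W)) (PMap.ofHomeo (asc Z Y W).symm)
      (R.ltens Z (R.tens y W)) := tens_ltens R Z y W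

theorem tens_congr_gg {X Y : LC} (y : R.Hom X Y) {W W' : LC} (c : W ≃ₜ W') :
    R.tens y W' = gg R (PMap.ltens X (PMap.ofHomeo c.symm)) (PMap.ltens Y (PMap.ofHomeo c))
      (R.tens y W) := by
  unfold gg
  rw [tens_exch R y (PMap.ofHomeo c), ← R.assoc, ← R.J_comp]
  have h : (PMap.ltens X (PMap.ofHomeo c)).comp (PMap.ltens X (PMap.ofHomeo c.symm)) =
      PMap.id (X.prod W') := by
    ext ⟨x, w⟩
    change ((((x, c (c.symm w)) : X × W')) : OnePoint (X × W')) = (((x, w) : X × W') : OnePoint _)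
    rw [c.apply_symm_apply]
  rw [h, R.id_comp]

theorem tens_point_gg {X Y : LC} (y : R.Hom X Y) : R.tens y LC.point =
    gg R (PMap.ofHomeo (Homeomorph.prodPUnit X : X.prod LC.point ≃ₜ X))
      (PMap.ofHomeo (Homeomorph.prodPUnit Y : Y.prod LC.point ≃ₜ Y).symm) y := by
  unfold gg
  rw [← R.assoc, ← R.tens_point, R.assoc, J_homeo_symm, R.comp_id]

theorem gg_congr {X X' Y Y' : LC} {a a' : PMap X' X.plus} {p p' : PMap Y Y'.plus} (y : R.Hom X Y)
    (h : ∀ x, a x = a' x) (h' : ∀ x, p x = p' x) : gg R a p y = gg R a' p' y := by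
  rw [show a = a' from PMap.ext h, show p = p' from PMap.ext h']

theorem gg_homotopic {X X' Y Y' : LC} {a a' : PMap X' X.plus} {p p' : PMap Y Y'.plus}
    (y : R.Hom X Y) (h : a.Homotopic a') (h' : p.Homotopic p') : gg R a p y = gg R a' p' y := by
  unfold gg
  rw [R.J_homotopic h, R.J_homotopic h']

/-- additive version -/
def ggH {X X' Y Y' : LC} (a : PMap X' X.plus) (p : PMap Y Y'.plus) : R.Hom X Y →+ R.Hom X' Y' where
  toFun y := gg R a p y
  map_zero' := gg_zero R a p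
  map_add' := gg_add R a p

/-! ### Stabilisation and renaming -/

variable (D : Datum)

section
variable {ι κ l ι' κ' : Type} [Fintype ι] [Fintype κ] [Fintype l] [Fintype ι'] [Fintype κ']
variable {K L M N Z W : LC}

/-- the transition maps of the localisation at a datum -/
def stabR (y : R.Hom ((D.A ι).prod K) ((D.B ι).prod Z)) (κ : Type) [Fintype κ] :
    R.Hom ((D.A (ι ⊕ κ)).prod K) ((D.B (ι ⊕ κ)).prod Z) :=
  R.comp (R.J (PMap.ofHomeo (D.domH ι κ K)))
    (R.comp (R.comp (R.tens y (D.A κ)) (R.ltens ((D.B ι).prod Z) (R.J (D.shat κ))))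
      (R.comp (R.J (PMap.ofHomeo (LC.rr (D.B ι) Z (D.B κ)))) (R.tens (R.J (D.mulB ι κ)) Z)))

/-- reindexing -/
def reR (e : ι ≃ κ) (y : R.Hom ((D.A ι).prod K) ((D.B ι).prod Z)) :
    R.Hom ((D.A κ).prod K) ((D.B κ).prod Z) :=
  R.comp (R.tens (R.J (PMap.ofHomeo (Datum.reA D e).symm)) K)
    (R.comp y (R.tens (R.J (PMap.ofHomeo (Datum.reB D e))) Z))

/-- the target part of the transition map -/
def pB (ι κ : Type) [Fintype ι] [Fintype κ] (Z : LC) :
    PMap (((D.B ι).prod Z).prod (D.A κ)) ((D.B (ι ⊕ κ)).prod Z).plus :=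
  ((D.mulB ι κ).tens Z).comp ((PMap.ofHomeo (LC.rr (D.B ι) Z (D.B κ))).comp
    (PMap.ltens ((D.B ι).prod Z) (D.shat κ)))

theorem pB_val (b : D.B ι) (z : Z) (v : D.A κ) :
    pB D ι κ Z ((b, z), v) = bnd (D.shat κ v) (fun c =>
      (((D.mulBFun ι κ (b, c), z) : D.B (ι ⊕ κ) × Z) : OnePoint (D.B (ι ⊕ κ) × Z))) := by
  change ((D.mulB ι κ).tens Z).plus ((PMap.ofHomeo (LC.rr (D.B ι) Z (D.B κ))).plus
    (smashPt ((D.B ι).prod Z) (D.B κ) ((((b, z) : D.B ι × Z) : OnePoint (D.B ι × Z)),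
      D.shat κ v))) = _
  rcases D.shat κ v with _ | c
  · rfl
  · rfl

theorem stabR_eq (y : R.Hom ((D.A ι).prod K) ((D.B ι).prod Z)) (κ : Type) [Fintype κ] :
    stabR R D y κ = gg R (PMap.ofHomeo (D.domH ι κ K)) (pB D ι κ Z) (R.tens y (D.A κ)) := by
  unfold stabR gg pB
  rw [ltens_J, R.tens_J, R.J_comp, R.J_comp]
  simp only [R.assoc]

theorem reR_eq (e : ι ≃ κ) (y : R.Hom ((D.A ι).prod K) ((D.B ι).prod Z)) :
    reR R D e y = gg R ((PMap.ofHomeo (Datum.reA D e).symm).tens K)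
      ((PMap.ofHomeo (Datum.reB D e)).tens Z) y := by
  unfold reR gg
  rw [R.tens_J, R.tens_J]

theorem reA_perm (e : Equiv.Perm ι) :
    (PMap.ofHomeo (Datum.reA D e).symm).Homotopic (PMap.id (D.A ι)) := by
  have h := rotC (n := ι × Option D.w) ((e.symm).prodCongr (Equiv.refl (Option D.w)))
  have e1 : PMap.ofHomeo (cperm ((e.symm).prodCongr (Equiv.refl (Option D.w)))) =
      PMap.ofHomeo (Datum.reA D e).symm := by
    refine PMap.ext fun v => ?_
    rfl
  rw [← e1]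
  exact h

theorem reB_perm (e : Equiv.Perm ι) :
    (PMap.ofHomeo (Datum.reB D e)).Homotopic (PMap.id (D.B ι)) := by
  have h := rotC (n := ι × Option D.u) (e.prodCongr (Equiv.refl (Option D.u)))
  have h2 := rotG (κ := ι × Option D.a) (e.prodCongr (Equiv.refl (Option D.a)))
  have h3 := (h.box_left (PMap.ofHomeo (K := LC.G (ι × Option D.a)) (L := LC.G (ι × Option D.a))
    (GK.reindex (e.prodCongr (Equiv.refl (Option D.a)))))).trans
    (PMap.Homotopic.box_right (PMap.id (LC.cpow (ι × Option D.u))) h2)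
  rw [PMap.box_id] at h3
  exact h3

theorem reR_perm (e : Equiv.Perm ι) (y : R.Hom ((D.A ι).prod K) ((D.B ι).prod Z)) :
    reR R D e y = y := by
  rw [reR_eq, gg_homotopic R y ((reA_perm D e).box_left _) ((reB_perm D e).box_left _)]
  rw [PMap.box_id, PMap.box_id, gg_id]

theorem reR_refl (y : R.Hom ((D.A ι).prod K) ((D.B ι).prod Z)) :
    reR R D (Equiv.refl ι) y = y := reR_perm R D (Equiv.refl ι) y

theorem reR_reR (e : ι ≃ κ) (e' : κ ≃ l) (y : R.Hom ((D.A ι).prod K) ((D.B ι).prod Z)) :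
    reR R D e' (reR R D e y) = reR R D (e.trans e') y := by
  rw [reR_eq, reR_eq, reR_eq, gg_gg]
  exact gg_congr R y (fun _ => rfl) (fun _ => rfl)

theorem reR_congr (e e' : ι ≃ κ) (y : R.Hom ((D.A ι).prod K) ((D.B ι).prod Z)) :
    reR R D e y = reR R D e' y := by
  have h := reR_reR R D (e.trans e'.symm) e' y
  rw [reR_perm R D (e.trans e'.symm : Equiv.Perm ι)] at h
  rw [h]
  congr 1
  ext x
  simp

theorem reR_add (e : ι ≃ κ) (y z : R.Hom ((D.A ι).prod K) ((D.B ι).prod Z)) :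
    reR R D e (y + z) = reR R D e y + reR R D e z := by
  rw [reR_eq, reR_eq, reR_eq, gg_add]

theorem reR_zero (e : ι ≃ κ) :
    reR R D e (0 : R.Hom ((D.A ι).prod K) ((D.B ι).prod Z)) = 0 := by
  rw [reR_eq, gg_zero]

theorem reR_eq_zero (e : ι ≃ κ) {y : R.Hom ((D.A ι).prod K) ((D.B ι).prod Z)}
    (h : reR R D e y = 0) : y = 0 := by
  have h1 := congrArg (reR R D e.symm) h
  rw [reR_reR, reR_zero, Equiv.self_trans_symm, reR_refl] at h1
  exact h1

theorem stabR_add (y z : R.Hom ((D.A ι).prod K) ((D.B ι).prod Z)) :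
    stabR R D (y + z) κ = stabR R D y κ + stabR R D z κ := by
  rw [stabR_eq, stabR_eq, stabR_eq, R.tens_add, gg_add]

theorem stabR_zero :
    stabR R D (0 : R.Hom ((D.A ι).prod K) ((D.B ι).prod Z)) κ = 0 := by
  rw [stabR_eq, R.tens_zero, gg_zero]

/-- stabilisation and renaming -/
theorem reR_stabR (e : ι ≃ ι') (y : R.Hom ((D.A ι).prod K) ((D.B ι).prod Z)) :
    stabR R D (reR R D e y) κ = reR R D (e.sumCongr (Equiv.refl κ)) (stabR R D y κ) := by
  rw [stabR_eq, stabR_eq, reR_eq, reR_eq, gg_tens, gg_gg, gg_gg]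
  refine gg_congr R _ ?_ ?_
  · rintro ⟨v, k⟩
    rfl
  · rintro ⟨⟨b, z⟩, v⟩
    change pB D ι' κ Z ((D.reB e b, z), v) =
      ((PMap.ofHomeo (D.reB (e.sumCongr (Equiv.refl κ)))).tens Z).plus (pB D ι κ Z ((b, z), v))
    rw [pB_val, pB_val]
    rcases D.shat κ v with _ | c
    · rfl
    · exact pt_congr (D.mulB_re e (Equiv.refl κ) b c) z

theorem stabR_reR (e : κ ≃ κ') (y : R.Hom ((D.A ι).prod K) ((D.B ι).prod Z)) :
    reR R D ((Equiv.refl ι).sumCongr e) (stabR R D y κ) = stabR R D y κ' := by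
  rw [stabR_eq, stabR_eq, reR_eq, gg_gg, tens_congr_gg R y (D.reA e), gg_gg]
  refine gg_congr R _ ?_ ?_
  · rintro ⟨v, k⟩
    rfl
  · rintro ⟨⟨b, z⟩, v⟩
    change ((PMap.ofHomeo (D.reB ((Equiv.refl ι).sumCongr e))).tens Z).plus
      (pB D ι κ Z ((b, z), v)) = pB D ι κ' Z ((b, z), D.reA e v)
    rw [pB_val, pB_val, D.shat_re]
    rcases D.shat κ v with _ | c
    · rfl
    · exact pt_congr (D.mulB_re (Equiv.refl ι) e b c).symm z

theorem stabR_stabR (y : R.Hom ((D.A ι).prod K) ((D.B ι).prod Z)) :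
    stabR R D y (κ ⊕ l) = reR R D (Equiv.sumAssoc ι κ l) (stabR R D (stabR R D y κ) l) := by
  rw [stabR_eq, stabR_eq, stabR_eq, reR_eq, gg_tens, gg_gg, gg_gg, tens_tens_gg, gg_gg,
    tens_congr_gg R y (D.splitA κ l).symm, gg_gg]
  refine gg_congr R _ ?_ ?_
  · rintro ⟨v, k⟩
    rfl
  · rintro ⟨⟨b, z⟩, v, w⟩
    change pB D ι (κ ⊕ l) Z ((b, z), (D.splitA κ l).symm (v, w)) =
      (((PMap.ofHomeo (D.reB (Equiv.sumAssoc ι κ l))).tens Z).comp (pB D (ι ⊕ κ) l Z)).plus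
        (smashPt ((D.B (ι ⊕ κ)).prod Z) (D.A l) (pB D ι κ Z ((b, z), v), (w : OnePoint (D.A l))))
    rw [pB_val, pB_val, D.shat_sum, Homeomorph.apply_symm_apply]
    rcases D.shat κ v with _ | c
    · rfl
    · change bnd (bnd (D.shat l w) _) _ = ((PMap.ofHomeo (D.reB (Equiv.sumAssoc ι κ l))).tens Z).plus
        (pB D (ι ⊕ κ) l Z ((D.mulBFun ι κ (b, c), z), w))
      rw [pB_val]
      rcases D.shat l w with _ | d
      · rfl
      · exact pt_congr (D.mulB_assoc b c d) z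

/-- `A κ` is a point for an empty set `κ` -/
def ptA (κ : Type) [Fintype κ] [IsEmpty κ] : LC.point ≃ₜ D.A κ where
  toFun _ := fun x => isEmptyElim x.1
  invFun _ := PUnit.unit
  left_inv _ := rfl
  right_inv _ := funext fun x => isEmptyElim x.1
  continuous_toFun := continuous_const
  continuous_invFun := continuous_const

theorem stabR_empty [IsEmpty κ] (y : R.Hom ((D.A ι).prod K) ((D.B ι).prod Z)) :
    stabR R D y κ = reR R D (Equiv.sumEmpty ι κ).symm y := by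
  rw [stabR_eq, reR_eq, tens_congr_gg R y (ptA D κ), gg_gg, tens_point_gg, gg_gg]
  refine gg_congr R _ ?_ ?_
  · rintro ⟨v, k⟩
    rfl
  · rintro ⟨b, z⟩
    change pB D ι κ Z ((b, z), ptA D κ PUnit.unit) =
      (((D.reB (Equiv.sumEmpty ι κ).symm b, z) : D.B (ι ⊕ κ) × Z) : OnePoint (D.B (ι ⊕ κ) × Z))
    rw [pB_val, D.shat_eq, D.shatG_some κ _ _ (fun i => isEmptyElim i) (fun i => isEmptyElim i)]
    refine pt_congr (Prod.ext ?_ (Datum.GK.ext ?_)) z
    · funext x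
      rcases x with ⟨i | i, j⟩
      · rfl
      · exact isEmptyElim i
    · rintro ⟨⟨i | i, j⟩, s⟩ ⟨⟨i' | i', j'⟩, s'⟩
      · rfl
      · exact isEmptyElim i'
      · exact isEmptyElim i
      · exact isEmptyElim i

/-- the transition map does not depend on the choice of the new indices -/
theorem stab_key (e : ι ⊕ κ ≃ l) (e' : ι ⊕ κ' ≃ l) (y : R.Hom ((D.A ι).prod K) ((D.B ι).prod Z)) :
    reR R D e (stabR R D y κ) = reR R D e' (stabR R D y κ') := by
  have hc : Fintype.card κ = Fintype.card κ' := by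
    have h1 := Fintype.card_congr (e.trans e'.symm)
    rw [Fintype.card_sum, Fintype.card_sum] at h1
    omega
  rw [← stabR_reR R D (Fintype.equivOfCardEq hc) y, reR_reR]
  exact reR_congr R D _ _ _

/-! ### Precomposition and suspension -/

/-- precomposition -/
def preR (φ : PMap K L.plus) (y : R.Hom ((D.A ι).prod L) ((D.B ι).prod Z)) :
    R.Hom ((D.A ι).prod K) ((D.B ι).prod Z) :=
  R.comp (R.J (PMap.ltens (D.A ι) φ)) y

theorem preR_eq (φ : PMap K L.plus) (y : R.Hom ((D.A ι).prod L) ((D.B ι).prod Z)) :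
    preR R D φ y = gg R (PMap.ltens (D.A ι) φ) (PMap.id _) y := by
  unfold preR gg
  rw [R.comp_id]

theorem preR_reR (φ : PMap K L.plus) (e : ι ≃ κ) (y : R.Hom ((D.A ι).prod L) ((D.B ι).prod Z)) :
    preR R D φ (reR R D e y) = reR R D e (preR R D φ y) := by
  rw [preR_eq, preR_eq, reR_eq, reR_eq, gg_gg, gg_gg]
  refine gg_congr R _ ?_ ?_
  · rintro ⟨v, k⟩
    change ((PMap.ofHomeo (Datum.reA D e).symm).tens L).plus (smashPt (D.A κ) L
      ((v : OnePoint (D.A κ)), φ k)) = smashPt (D.A ι) L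
      (((D.reA e.symm v : D.A ι) : OnePoint (D.A ι)), φ k)
    rcases φ k with _ | x
    · rfl
    · rfl
  · intro x
    rfl

theorem preR_stabR (φ : PMap K L.plus) (y : R.Hom ((D.A ι).prod L) ((D.B ι).prod Z)) :
    preR R D φ (stabR R D y κ) = stabR R D (preR R D φ y) κ := by
  rw [preR_eq, preR_eq, stabR_eq, stabR_eq, gg_tens, gg_gg, gg_gg]
  refine gg_congr R _ ?_ ?_
  · rintro ⟨v, k⟩
    change (PMap.ofHomeo (D.domH ι κ L)).plus (smashPt (D.A (ι ⊕ κ)) L
      ((v : OnePoint (D.A (ι ⊕ κ))), φ k)) = smashPt ((D.A ι).prod L) (D.A κ)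
      (smashPt (D.A ι) L ((((D.splitA ι κ v).1 : D.A ι) : OnePoint (D.A ι)), φ k),
        (((D.splitA ι κ v).2 : D.A κ) : OnePoint (D.A κ)))
    rcases φ k with _ | x
    · rfl
    · rfl
  · rintro ⟨⟨b, z⟩, v⟩
    change (PMap.id _).plus (pB D ι κ Z ((b, z), v)) = pB D ι κ Z ((b, z), v)
    rcases pB D ι κ Z ((b, z), v) with _ | x
    · rfl
    · rfl

/-- the map `A × (ℂ × K) → ℂ × (A × K)` -/
def frontC (A K : LC) : A.prod (LC.C.prod K) ≃ₜ LC.C.prod (A.prod K) where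
  toFun x := (x.2.1, (x.1, x.2.2))
  invFun x := (x.2.1, (x.1, x.2.2))
  left_inv _ := rfl
  right_inv _ := rfl
  continuous_toFun := by fun_prop
  continuous_invFun := by fun_prop

/-- suspension -/
def sigR (y : R.Hom ((D.A ι).prod K) ((D.B ι).prod Z)) :
    R.Hom ((D.A ι).prod (LC.C.prod K)) ((D.B ι).prod (LC.C.prod Z)) :=
  R.comp (R.J (PMap.ofHomeo (frontC (D.A ι) K)))
    (R.comp (R.ltens LC.C y) (R.J (PMap.ofHomeo (frontC (D.B ι) Z).symm)))

theorem sigR_eq (y : R.Hom ((D.A ι).prod K) ((D.B ι).prod Z)) :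
    sigR R D y = gg R (PMap.ofHomeo (frontC (D.A ι) K)) (PMap.ofHomeo (frontC (D.B ι) Z).symm)
      (R.ltens LC.C y) := rfl

theorem sigR_reR (e : ι ≃ κ) (y : R.Hom ((D.A ι).prod K) ((D.B ι).prod Z)) :
    sigR R D (reR R D e y) = reR R D e (sigR R D y) := by
  rw [sigR_eq, sigR_eq, reR_eq, reR_eq, gg_ltens, gg_gg, gg_gg]
  exact gg_congr R _ (fun _ => rfl) (fun _ => rfl)

theorem sigR_preR (φ : PMap K L.plus) (y : R.Hom ((D.A ι).prod L) ((D.B ι).prod Z)) :
    sigR R D (preR R D φ y) = preR R D (PMap.ltens LC.C φ) (sigR R D y) := by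
  rw [sigR_eq, sigR_eq, preR_eq, preR_eq, gg_ltens, gg_gg, gg_gg]
  refine gg_congr R _ ?_ ?_
  · rintro ⟨v, c, k⟩
    change smashPt LC.C ((D.A ι).prod L) ((c : OnePoint LC.C), smashPt (D.A ι) L
      ((v : OnePoint (D.A ι)), φ k)) = (PMap.ofHomeo (frontC (D.A ι) L)).plus
      (smashPt (D.A ι) (LC.C.prod L) ((v : OnePoint (D.A ι)), smashPt LC.C L
        ((c : OnePoint LC.C), φ k)))
    rcases φ k with _ | x
    · rfl
    · rfl
  · rintro ⟨c, b, z⟩
    rfl

theorem sigR_stabR (y : R.Hom ((D.A ι).prod K) ((D.B ι).prod Z)) :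
    sigR R D (stabR R D y κ) = stabR R D (sigR R D y) κ := by
  rw [sigR_eq, sigR_eq, stabR_eq, stabR_eq, gg_ltens, gg_tens, gg_gg, gg_gg, tens_ltens_gg, gg_gg]
  refine gg_congr R _ ?_ ?_
  · rintro ⟨v, c, k⟩
    rfl
  · rintro ⟨c, ⟨b, z⟩, v⟩
    change (PMap.ofHomeo (frontC (D.B (ι ⊕ κ)) Z).symm).plus (smashPt LC.C _
      ((c : OnePoint LC.C), pB D ι κ Z ((b, z), v))) = pB D ι κ (LC.C.prod Z) ((b, (c, z)), v)
    rw [pB_val, pB_val]
    rcases D.shat κ v with _ | d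
    · rfl
    · rfl

theorem sigR_bijective : Function.Bijective (fun y : R.Hom ((D.A ι).prod K) ((D.B ι).prod Z) =>
    sigR R D y) := by
  have h1 := R.ltens_C_bijective ((D.A ι).prod K) ((D.B ι).prod Z)
  have h2 := (R.invP_homeo (frontC (D.B ι) Z).symm).post_bij R (K := LC.C.prod ((D.A ι).prod K))
  have h3 := (R.invP_homeo (frontC (D.A ι) K)).pre_bij R (M := (D.B ι).prod (LC.C.prod Z))
  exact h3.comp (h2.comp h1)

end

end Pool.Agent.Helper11.Stab
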